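import Mathlib

/-!
# A connected binary matroid whose Penrose polynomial has `1` as a double root

The binary matroid has nine elements and a cycle space of dimension five; its Penrose polynomial is
`(λ - 1)^2 (λ - 2)^3`.
-/

set_option linter.all false
set_option maxRecDepth 100000

namespace Pool.Agent.Results.MP_8c6d5c_co.DoubleRootOne

open Polynomial Finset

/-! ### Definitions (for a finite ground set `E`)

A subset of `E` is identified with its characteristic vector in `E → ZMod 2`, symmetric difference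
with addition; a binary matroid on `E` is its cycle space, a linear subspace of `E → ZMod 2`. -/

section defs

variable {E : Type} [Fintype E] [DecidableEq E]

/-- Intersection with `A`. -/
def inter (A : Finset E) : (E → ZMod 2) →ₗ[ZMod 2] (E → ZMod 2) where
  toFun x := fun e => if e ∈ A then x e else 0
  map_add' x y := by funext e; by_cases h : e ∈ A <;> simp [h]
  map_smul' c x := by funext e; by_cases h : e ∈ A <;> simp [h]

/-- The cocycle space `C^⊥`: the sets meeting every cycle in an even number of elements. -/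
def cocycleSpace (C : Submodule (ZMod 2) (E → ZMod 2)) : Submodule (ZMod 2) (E → ZMod 2) where
  carrier := {y | ∀ x ∈ C, ∑ e, x e * y e = 0}
  add_mem' := by
    intro y z hy hz x hx
    simp only [Pi.add_apply, mul_add, Finset.sum_add_distrib, hy x hx, hz x hx, add_zero]
  zero_mem' := by intro x _; simp
  smul_mem' := by
    intro c y hy x hx
    have : ∑ e, x e * (c • y) e = c * ∑ e, x e * y e := by
      rw [Finset.mul_sum]
      exact Finset.sum_congr rfl fun e _ => by simp [Pi.smul_apply, smul_eq_mul]; ring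
    rw [this, hy x hx, mul_zero]

/-- The bicycle space of `A`: the cycles `x` such that `x ∩ A` is a cocycle. -/
def bicycleSpace (C : Submodule (ZMod 2) (E → ZMod 2)) (A : Finset E) :
    Submodule (ZMod 2) (E → ZMod 2) :=
  C ⊓ (cocycleSpace C).comap (inter A)

/-- The Penrose polynomial. -/
noncomputable def penrose (C : Submodule (ZMod 2) (E → ZMod 2)) : ℤ[X] :=
  ∑ A : Finset E, (-1) ^ A.card * X ^ Module.finrank (ZMod 2) (bicycleSpace C A)

/-- The subspace `2^A` of all subsets of `A`. -/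
def subsetsOf (A : Finset E) : Submodule (ZMod 2) (E → ZMod 2) where
  carrier := {x | ∀ e, e ∉ A → x e = 0}
  add_mem' := by
    intro x y hx hy e he
    simp [hx e he, hy e he]
  zero_mem' := by intro e _; rfl
  smul_mem' := by
    intro c x hx e he
    simp [hx e he]

/-- Connectivity of the binary matroid with cycle space `C`: the ground set is nonempty and there is
no partition of it in two nonempty parts such that the cycles are exactly the unions (sums) of a
cycle contained in the first part and a cycle contained in the second. -/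
def IsConnected (C : Submodule (ZMod 2) (E → ZMod 2)) : Prop :=
  Nonempty E ∧ ¬ ∃ E₁ : Finset E, E₁.Nonempty ∧ E₁ᶜ.Nonempty ∧
    ∀ x : E → ZMod 2, x ∈ C ↔ ∃ y ∈ C ⊓ subsetsOf E₁, ∃ z ∈ C ⊓ subsetsOf E₁ᶜ, x = y + z

end defs

/-! ### The example -/

/-- The columns of the generator matrix as bit masks. -/
def col (e : ℕ) : ℕ := [7, 11, 16, 1, 9, 23, 6, 19, 22].getD e 0

/-- The cycle spanned by `u`, as a bit mask of nine bits. -/
def word (u : ℕ) : ℕ := [
  0, 187, 483, 344, 353, 474, 130, 57, 18, 169, 497, 330, 371, 456, 144, 43, 420, 287, 71, 252,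
  197, 126, 294, 413, 438, 269, 85, 238, 215, 108, 308, 399].getD u 0

/-- The dimensions of the bicycle spaces. -/
def dimTable : List ℕ := [
  5, 4, 4, 3, 4, 3, 3, 2, 4, 3, 3, 2, 3, 2, 2, 1, 4, 3, 3, 2, 3, 2, 2, 1, 3, 2, 2, 1, 2, 1, 1, 0,
  4, 3, 3, 2, 3, 3, 2, 2, 3, 2, 2, 1, 2, 2, 1, 1, 3, 2, 2, 1, 2, 2, 1, 1, 2, 1, 1, 0, 1, 1, 0, 0,
  4, 3, 3, 2, 3, 2, 2, 1, 3, 3, 2, 2, 2, 2, 1, 1, 3, 2, 2, 1, 2, 1, 1, 0, 2, 2, 1, 1, 1, 1, 0, 0,
  3, 2, 2, 1, 2, 2, 1, 1, 2, 2, 1, 1, 3, 3, 2, 2, 2, 1, 1, 0, 1, 1, 0, 0, 1, 1, 0, 0, 2, 2, 1, 1,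
  4, 3, 3, 2, 3, 2, 2, 1, 3, 2, 2, 1, 2, 1, 1, 0, 3, 2, 2, 1, 2, 1, 1, 0, 2, 1, 1, 0, 1, 0, 1, 0,
  3, 2, 2, 1, 2, 2, 1, 1, 2, 1, 1, 0, 1, 1, 0, 0, 2, 1, 1, 0, 1, 1, 0, 0, 1, 0, 0, 1, 0, 0, 0, 1,
  3, 2, 2, 1, 2, 1, 1, 0, 2, 2, 1, 1, 1, 1, 0, 0, 2, 1, 1, 0, 1, 0, 0, 1, 1, 1, 0, 0, 0, 0, 0, 1,
  2, 1, 1, 0, 1, 1, 0, 0, 1, 1, 0, 0, 2, 2, 1, 1, 1, 0, 1, 0, 0, 0, 0, 1, 0, 0, 0, 1, 1, 1, 1, 2,
  4, 3, 3, 2, 3, 2, 2, 1, 3, 2, 2, 1, 2, 3, 1, 2, 3, 2, 2, 1, 2, 1, 1, 0, 2, 1, 1, 0, 1, 2, 0, 1,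
  3, 2, 2, 1, 2, 2, 1, 1, 3, 2, 2, 1, 2, 3, 1, 2, 2, 1, 1, 0, 1, 1, 0, 0, 2, 1, 1, 0, 1, 2, 0, 1,
  3, 2, 2, 1, 3, 2, 2, 1, 2, 2, 1, 1, 2, 3, 1, 2, 2, 1, 1, 0, 2, 1, 1, 0, 1, 1, 0, 0, 1, 2, 0, 1,
  2, 3, 1, 2, 2, 3, 1, 2, 2, 3, 1, 2, 3, 4, 2, 3, 1, 2, 0, 1, 1, 2, 0, 1, 1, 2, 0, 1, 2, 3, 1, 2,
  3, 2, 2, 1, 2, 1, 1, 0, 2, 1, 1, 0, 1, 2, 0, 1, 2, 1, 1, 1, 1, 0, 0, 0, 1, 0, 0, 0, 0, 1, 0, 1,
  2, 1, 1, 0, 1, 1, 0, 0, 2, 1, 1, 0, 1, 2, 0, 1, 1, 0, 0, 0, 0, 0, 1, 1, 1, 0, 0, 1, 0, 1, 1, 2,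
  2, 1, 1, 0, 2, 1, 1, 0, 1, 1, 0, 0, 1, 2, 0, 1, 1, 0, 0, 0, 1, 0, 0, 1, 0, 0, 1, 1, 0, 1, 1, 2,
  1, 2, 0, 1, 1, 2, 0, 1, 1, 2, 0, 1, 2, 3, 1, 2, 0, 1, 0, 1, 0, 1, 1, 2, 0, 1, 1, 2, 1, 2, 2, 3]

/-- Bit vectors. -/
def vec (n : ℕ) (m : ℕ) : Fin n → ZMod 2 := fun i => if m.testBit i then 1 else 0

theorem sum9 {M : Type*} [AddCommMonoid M] (f : Fin 9 → M) :
    ∑ i, f i = f 0 + f 1 + f 2 + f 3 + f 4 + f 5 + f 6 + f 7 + f 8 := by
  rw [Fin.sum_univ_castSucc, Fin.sum_univ_eight]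
  rfl

theorem vec_xor (n a b : ℕ) : vec n (a ^^^ b) = vec n a + vec n b := by
  funext i
  simp only [vec, Pi.add_apply, Nat.testBit_xor]
  cases a.testBit i <;> cases b.testBit i <;> decide

theorem vec_zero (n : ℕ) : vec n 0 = 0 := by
  funext i
  simp [vec]

theorem vec_inj (n a b : ℕ) (ha : a < 2 ^ n) (hb : b < 2 ^ n) (h : vec n a = vec n b) : a = b := by
  apply Nat.eq_of_testBit_eq
  intro i
  by_cases hi : i < n
  · have := congrFun h ⟨i, hi⟩
    simp only [vec] at this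
    cases h1 : a.testBit i <;> cases h2 : b.testBit i <;> simp_all
  · have h1 : a.testBit i = false :=
      Nat.testBit_lt_two_pow (lt_of_lt_of_le ha (Nat.pow_le_pow_right (by norm_num) (not_lt.1 hi)))
    have h2 : b.testBit i = false :=
      Nat.testBit_lt_two_pow (lt_of_lt_of_le hb (Nat.pow_le_pow_right (by norm_num) (not_lt.1 hi)))
    rw [h1, h2]

theorem vec_surj (n : ℕ) (x : Fin n → ZMod 2) : ∃ a, a < 2 ^ n ∧ vec n a = x := by
  have h : Function.Bijective (fun a : Fin (2 ^ n) => vec n a) := by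
    rw [Fintype.bijective_iff_injective_and_card]
    refine ⟨fun a b hab => Fin.ext (vec_inj n a b a.2 b.2 hab), ?_⟩
    simp [ZMod.card]
  obtain ⟨a, ha⟩ := h.2 x
  exact ⟨a, a.2, ha⟩

/-- The linear map spanning the cycle space. -/
def gen : (Fin 5 → ZMod 2) →ₗ[ZMod 2] (Fin 9 → ZMod 2) :=
  Matrix.mulVecLin (Matrix.of fun (e : Fin 9) (j : Fin 5) => vec 5 (col e) j)

theorem gen_apply (x : Fin 5 → ZMod 2) (e : Fin 9) :
    gen x e = ∑ j, vec 5 (col e) j * x j := rfl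

/-- The cycle space. -/
def cyc : Submodule (ZMod 2) (Fin 9 → ZMod 2) := LinearMap.range gen

theorem word_check : ∀ u : Fin 32, ∀ e : Fin 9,
    ∑ j, vec 5 (col e) j * vec 5 u j = vec 9 (word u) e := by
  decide +kernel

theorem gen_vec (u : ℕ) (hu : u < 32) : gen (vec 5 u) = vec 9 (word u) := by
  funext e
  exact word_check ⟨u, hu⟩ e

theorem word_lt : ∀ u < 32, word u < 512 := by decide +kernel

theorem word_inj : ∀ u < 32, ∀ v < 32, word u = word v → u = v := by decide +kernel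

theorem mem_cyc (x : Fin 9 → ZMod 2) : x ∈ cyc ↔ ∃ u < 32, vec 9 (word u) = x := by
  constructor
  · rintro ⟨y, rfl⟩
    obtain ⟨u, hu, rfl⟩ := vec_surj 5 y
    exact ⟨u, hu, (gen_vec u hu).symm⟩
  · rintro ⟨u, hu, rfl⟩
    exact ⟨vec 5 u, gen_vec u hu⟩

/-- The subset of `Fin 9` with bit mask `a`. -/
def setOf' (a : ℕ) : Finset (Fin 9) := univ.filter (fun e => a.testBit e = true)

theorem setOf_inj (a b : ℕ) (ha : a < 512) (hb : b < 512) (h : setOf' a = setOf' b) : a = b := by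
  apply vec_inj 9 a b ha hb
  funext e
  have : e ∈ setOf' a ↔ e ∈ setOf' b := by rw [h]
  simp only [setOf', mem_filter, mem_univ, true_and] at this
  simp only [vec]
  by_cases h1 : a.testBit e = true
  · rw [if_pos h1, if_pos (this.1 h1)]
  · rw [if_neg h1, if_neg (fun h2 => h1 (this.2 h2))]

theorem setOf_bij : Function.Bijective (fun a : Fin 512 => setOf' a) := by
  rw [Fintype.bijective_iff_injective_and_card]
  refine ⟨fun a b hab => Fin.ext (setOf_inj a b a.2 b.2 hab), ?_⟩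
  simp

theorem inter_vec (a m : ℕ) : inter (setOf' a) (vec 9 m) = vec 9 (a &&& m) := by
  funext e
  simp only [inter, LinearMap.coe_mk, AddHom.coe_mk, setOf', mem_filter, mem_univ, true_and, vec,
    Nat.testBit_and]
  cases a.testBit e <;> cases m.testBit e <;> simp

/-- One summand. -/
def tm (m e : ℕ) : ℕ := bif m.testBit e then col e else 0

/-- The sum of the columns indexed by the bits of `m`. -/
def syn (m : ℕ) : ℕ :=
  tm m 0 ^^^ tm m 1 ^^^ tm m 2 ^^^ tm m 3 ^^^ tm m 4 ^^^ tm m 5 ^^^ tm m 6 ^^^ tm m 7 ^^^ tm m 8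

theorem vec_tm (m : ℕ) (e : Fin 9) : vec 5 (tm m e) = vec 9 m e • vec 5 (col e) := by
  unfold tm
  cases h : m.testBit e
  · have : vec 9 m e = 0 := by simp [vec, h]
    rw [this, zero_smul, cond_false, vec_zero]
  · have : vec 9 m e = 1 := by simp [vec, h]
    rw [this, one_smul, cond_true]

theorem vec_syn (m : ℕ) : vec 5 (syn m) = ∑ e : Fin 9, vec 9 m e • vec 5 (col e) := by
  unfold syn
  simp only [vec_xor]
  have h := fun e => vec_tm m e
  rw [sum9]
  rw [← h 0, ← h 1, ← h 2, ← h 3, ← h 4, ← h 5, ← h 6, ← h 7, ← h 8]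
  rfl

theorem tm_lt (m : ℕ) (e : Fin 9) : tm m e < 2 ^ 5 := by
  unfold tm
  have h : ∀ e : Fin 9, col e < 2 ^ 5 := by decide
  cases m.testBit e
  · simp
  · simpa using h e

theorem syn_lt (m : ℕ) : syn m < 2 ^ 5 := by
  unfold syn
  exact Nat.xor_lt_two_pow (Nat.xor_lt_two_pow (Nat.xor_lt_two_pow (Nat.xor_lt_two_pow
    (Nat.xor_lt_two_pow (Nat.xor_lt_two_pow (Nat.xor_lt_two_pow (Nat.xor_lt_two_pow
      (tm_lt m 0) (tm_lt m 1)) (tm_lt m 2)) (tm_lt m 3)) (tm_lt m 4)) (tm_lt m 5)) (tm_lt m 6))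
      (tm_lt m 7)) (tm_lt m 8)

/-- Orthogonality to all cycles. -/
theorem mem_cocycle (y : Fin 9 → ZMod 2) :
    y ∈ cocycleSpace cyc ↔ ∑ e : Fin 9, y e • vec 5 (col e) = 0 := by
  have key : ∀ x : Fin 5 → ZMod 2, ∑ e, gen x e * y e =
      ∑ j, x j * (∑ e : Fin 9, y e • vec 5 (col e)) j := by
    intro x
    simp only [gen_apply, Finset.sum_apply, Pi.smul_apply, smul_eq_mul, Finset.mul_sum,
      Finset.sum_mul]
    rw [Finset.sum_comm]
    apply Finset.sum_congr rfl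
    intro j _
    apply Finset.sum_congr rfl
    intro e _
    ring
  constructor
  · intro h
    funext j
    have h1 := h (gen (Pi.single j 1)) ⟨_, rfl⟩
    rw [key] at h1
    simpa [Pi.single_apply] using h1
  · rintro h _ ⟨x, rfl⟩
    rw [key, h]
    simp

theorem mem_bicycle (a u : ℕ) (hu : u < 32) :
    vec 9 (word u) ∈ bicycleSpace cyc (setOf' a) ↔ syn (a &&& word u) = 0 := by
  constructor
  · rintro ⟨-, h⟩
    rw [SetLike.mem_coe, Submodule.mem_comap, inter_vec, mem_cocycle, ← vec_syn] at h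
    exact vec_inj 5 _ _ (syn_lt _) (by norm_num) (h.trans (vec_zero 5).symm)
  · intro h
    refine ⟨(mem_cyc _).2 ⟨u, hu, rfl⟩, ?_⟩
    rw [SetLike.mem_coe, Submodule.mem_comap, inter_vec, mem_cocycle, ← vec_syn, h, vec_zero]

/-- The number of elements of the bicycle space. -/
def cnt (a : ℕ) : ℕ := ((Finset.range 32).filter (fun u => syn (a &&& word u) = 0)).card

theorem card_bicycle (a : ℕ) : Nat.card (bicycleSpace cyc (setOf' a)) = cnt a := by
  have hb : Function.Bijective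
      (fun u : {u // u ∈ (Finset.range 32).filter (fun u => syn (a &&& word u) = 0)} =>
        (⟨vec 9 (word u.1), by
          have := u.2
          rw [mem_filter, mem_range] at this
          exact (mem_bicycle a u.1 this.1).2 this.2⟩ : bicycleSpace cyc (setOf' a))) := by
    constructor
    · rintro ⟨u, hu⟩ ⟨v, hv⟩ h
      rw [mem_filter, mem_range] at hu hv
      have h1 : vec 9 (word u) = vec 9 (word v) := congrArg Subtype.val h
      have h2 := vec_inj 9 _ _ (word_lt u hu.1) (word_lt v hv.1) h1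
      exact Subtype.ext (word_inj u hu.1 v hv.1 h2)
    · rintro ⟨x, hx⟩
      obtain ⟨u, hu, rfl⟩ := (mem_cyc x).1 hx.1
      refine ⟨⟨u, ?_⟩, rfl⟩
      rw [mem_filter, mem_range]
      exact ⟨hu, (mem_bicycle a u hu).1 hx⟩
  rw [← Nat.card_eq_of_bijective _ hb, Nat.card_eq_fintype_card, Fintype.card_coe]
  rfl

theorem cnt_check : ∀ a < 512, cnt a = 2 ^ (dimTable.getD a 0) := by decide +kernel

theorem finrank_bicycle (a : ℕ) (ha : a < 512) :
    Module.finrank (ZMod 2) (bicycleSpace cyc (setOf' a)) = dimTable.getD a 0 := by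
  have h1 := Module.natCard_eq_pow_finrank (K := ZMod 2) (V := bicycleSpace cyc (setOf' a))
  rw [card_bicycle, cnt_check a ha, Nat.card_zmod] at h1
  exact (Nat.pow_right_injective (le_refl 2) h1).symm

/-- The number of the nine lowest bits which are set. -/
def pop (a : ℕ) : ℕ :=
  (bif a.testBit 0 then 1 else 0) + (bif a.testBit 1 then 1 else 0) +
  (bif a.testBit 2 then 1 else 0) + (bif a.testBit 3 then 1 else 0) +
  (bif a.testBit 4 then 1 else 0) + (bif a.testBit 5 then 1 else 0) +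
  (bif a.testBit 6 then 1 else 0) + (bif a.testBit 7 then 1 else 0) +
  (bif a.testBit 8 then 1 else 0)

theorem card_setOf (a : ℕ) : (setOf' a).card = pop a := by
  unfold setOf' pop
  rw [Finset.card_filter, sum9]
  simp only [Bool.cond_eq_ite]
  rfl

/-- The coefficients. -/
def coef (d : ℕ) : ℤ :=
  ∑ a ∈ Finset.range 512, if dimTable.getD a 0 = d then (-1) ^ pop a else 0

theorem coef_check : coef 0 = -8 ∧ coef 1 = 28 ∧ coef 2 = -38 ∧ coef 3 = 25 ∧ coef 4 = -8 ∧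
    coef 5 = 1 := by decide +kernel

theorem dim_lt : ∀ a < 512, dimTable.getD a 0 < 6 := by decide +kernel

theorem penrose_cyc : penrose cyc = (X - 1) ^ 2 * (X - 2) ^ 3 := by
  have h1 : penrose cyc = ∑ a ∈ Finset.range 512,
      ((-1) ^ pop a * X ^ (dimTable.getD a 0) : ℤ[X]) := by
    rw [Finset.sum_range, penrose, ← setOf_bij.sum_comp]
    apply Finset.sum_congr rfl
    intro a _
    rw [card_setOf, finrank_bicycle a a.2]
  have h2 : penrose cyc = ∑ d ∈ Finset.range 6, C (coef d) * X ^ d := by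
    rw [h1]
    simp only [coef, map_sum, Finset.sum_mul]
    rw [Finset.sum_comm]
    apply Finset.sum_congr rfl
    intro a ha
    rw [Finset.sum_eq_single (dimTable.getD a 0)]
    · simp
    · intro d _ hd
      rw [if_neg (Ne.symm hd)]
      simp
    · intro h
      exact absurd (mem_range.2 (dim_lt a (mem_range.1 ha))) h
  rw [h2]
  obtain ⟨c0, c1, c2, c3, c4, c5⟩ := coef_check
  simp only [Finset.sum_range_succ, Finset.sum_range_zero, c0, c1, c2, c3, c4, c5]
  simp only [map_neg, map_ofNat, map_one]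
  ring

theorem conn_check : ∀ a < 512, a = 0 ∨ a = 511 ∨
    ∃ u < 32, ∀ w < 32, word w ≠ a &&& word u := by decide +kernel

theorem connected_cyc : IsConnected cyc := by
  refine ⟨⟨0⟩, ?_⟩
  rintro ⟨E₁, h1, h2, h⟩
  obtain ⟨⟨a, ha⟩, rfl⟩ := setOf_bij.2 E₁
  simp only at h h1 h2
  rcases conn_check a ha with h0 | h0 | ⟨u, hu, hw⟩
  · subst h0
    have : setOf' 0 = ∅ := by decide
    rw [this] at h1
    exact Finset.not_nonempty_empty h1
  · subst h0
    have : (setOf' 511)ᶜ = ∅ := by decide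
    rw [this] at h2
    exact Finset.not_nonempty_empty h2
  · obtain ⟨y, hy, z, hz, hyz⟩ := (h (vec 9 (word u))).1 ((mem_cyc _).2 ⟨u, hu, rfl⟩)
    have e1 : inter (setOf' a) (vec 9 (word u)) = y := by
      rw [hyz]
      funext e
      have hy2 : e ∉ setOf' a → y e = 0 := hy.2 e
      have hz2 : e ∉ (setOf' a)ᶜ → z e = 0 := hz.2 e
      simp only [inter, LinearMap.coe_mk, AddHom.coe_mk, Pi.add_apply]
      by_cases he : e ∈ setOf' a
      · rw [if_pos he, hz2 (by simpa using he), add_zero]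
      · rw [if_neg he, hy2 he]
    obtain ⟨w, hw1, hw2⟩ := (mem_cyc y).1 hy.1
    apply hw w hw1
    apply vec_inj 9 _ _ (word_lt w hw1) (lt_of_le_of_lt Nat.and_le_right (word_lt u hu))
    rw [hw2, ← e1, inter_vec]

/-- There is a connected binary matroid (on nine elements) with nonzero Penrose polynomial
divisible by `(λ - 1)^2`; the polynomial is `(λ - 1)^2 (λ - 2)^3`. -/
theorem result : ∃ M : Submodule (ZMod 2) (Fin 9 → ZMod 2),
    IsConnected M ∧ penrose M ≠ 0 ∧ (X - 1) ^ 2 ∣ penrose M ∧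
      penrose M = (X - 1) ^ 2 * (X - 2) ^ 3 := by
  refine ⟨cyc, connected_cyc, ?_, ⟨(X - 2) ^ 3, penrose_cyc⟩, penrose_cyc⟩
  rw [penrose_cyc]
  intro h
  have := congrArg (Polynomial.eval 3) h
  norm_num at this

end Pool.Agent.Results.MP_8c6d5c_co.DoubleRootOne
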